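import Mathlib

/-!
# Constant maps and autohomeomorphisms of `ω*` lie in different orbits of `C_k(ω*, ω*)`
-/

namespace Pool.Agent.Results.MP_80df55_gt.DifferentOrbits

open Set Filter Topology TopologicalSpace

/-- The Čech–Stone remainder `ω* = βω ∖ ω`: the non-principal ultrafilters on `ℕ`, a subspace of
the Stone space `βω = Ultrafilter ℕ`. -/
abbrev OmegaStar : Type := {p : Ultrafilter ℕ // ∀ n : ℕ, p ≠ pure n}

/-- The constant map with value `p`. -/
def constMap (p : OmegaStar) : C(OmegaStar, OmegaStar) := ContinuousMap.const OmegaStar p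

/-- `p` is a weak `P`-point of `X`: it is not in the closure of any countable subset of
`X ∖ {p}`. -/
def IsWeakPPoint {X : Type*} [TopologicalSpace X] (p : X) : Prop :=
  ∀ A : Set X, A.Countable → p ∉ A → p ∉ closure A

/-- The trace of the basic clopen set of `A`. -/
def star (A : Set ℕ) : Set OmegaStar := {p | A ∈ p.1}

theorem isClosed_range_pure_compl : IsClosed {p : Ultrafilter ℕ | ∀ n : ℕ, p ≠ pure n} := by
  have : {p : Ultrafilter ℕ | ∀ n : ℕ, p ≠ pure n} = ⋂ n : ℕ, {p : Ultrafilter ℕ | {n}ᶜ ∈ p} := by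
    ext p
    simp only [Set.mem_ofPred_eq, Set.mem_iInter]
    refine forall_congr' fun n => ?_
    rw [Ultrafilter.compl_mem_iff_notMem, not_iff_not]
    constructor
    · rintro rfl
      simp
    · intro h
      exact Ultrafilter.eq_of_le (by
        rw [Ultrafilter.coe_pure]
        exact (le_pure_iff.2 h))
  rw [this]
  exact isClosed_iInter fun n => ultrafilter_isClosed_basic _

instance : CompactSpace OmegaStar := isCompact_iff_compactSpace.1
  isClosed_range_pure_compl.isCompact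

theorem isOpen_star (A : Set ℕ) : IsOpen (star A) :=
  (ultrafilter_isOpen_basic A).preimage continuous_subtype_val

theorem isClosed_star (A : Set ℕ) : IsClosed (star A) :=
  (ultrafilter_isClosed_basic A).preimage continuous_subtype_val

theorem infinite_of_mem (p : OmegaStar) {A : Set ℕ} (hA : A ∈ p.1) : A.Infinite := by
  intro hfin
  obtain ⟨n, -, hn⟩ := Ultrafilter.eq_pure_of_finite_mem hfin hA
  exact p.2 n hn

theorem mem_of_finite_compl (p : OmegaStar) {A : Set ℕ} (hA : Aᶜ.Finite) : A ∈ p.1 := by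
  by_contra h
  exact infinite_of_mem p (Ultrafilter.compl_mem_iff_notMem.2 h) hA

theorem star_nonempty {A : Set ℕ} (hA : A.Infinite) : (star A).Nonempty := by
  have : (cofinite ⊓ 𝓟 A).NeBot := by
    rw [Filter.inf_principal_neBot_iff]
    intro U hU
    have hU' : Uᶜ.Finite := hU
    by_contra hne
    rw [Set.not_nonempty_iff_eq_empty] at hne
    apply hA
    apply hU'.subset
    intro x hx hxU
    have : x ∈ U ∩ A := ⟨hxU, hx⟩
    rw [hne] at this
    exact this
  let u := Ultrafilter.of (cofinite ⊓ 𝓟 A)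
  have hu : (u : Filter ℕ) ≤ cofinite ⊓ 𝓟 A := Ultrafilter.of_le _
  refine ⟨⟨u, ?_⟩, ?_⟩
  · intro n hn
    have h1 : {n}ᶜ ∈ (u : Filter ℕ) := hu (Filter.mem_inf_of_left (by simp))
    rw [hn] at h1
    simp at h1
  · exact hu (Filter.mem_inf_of_right (Filter.mem_principal_self A))

/-- The basic clopen sets form a base. -/
theorem exists_star {p : OmegaStar} {V : Set OmegaStar} (hV : IsOpen V) (hp : p ∈ V) :
    ∃ A : Set ℕ, A ∈ p.1 ∧ star A ⊆ V := by
  obtain ⟨W, hW, rfl⟩ := isOpen_induced_iff.1 hV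
  obtain ⟨_, ⟨A, rfl⟩, hpA, hAW⟩ := ultrafilterBasis_is_basis.exists_subset_of_mem_open
    (show p.1 ∈ W from hp) hW
  exact ⟨A, hpA, fun q hq => hAW hq⟩

/-- `ω*` is an almost `P`-space. -/
theorem almostP {p : OmegaStar} {V : ℕ → Set OmegaStar} (hV : ∀ n, IsOpen (V n))
    (hp : ∀ n, p ∈ V n) : ∃ G : Set OmegaStar, IsOpen G ∧ G.Nonempty ∧ ∀ n, G ⊆ V n := by
  have h1 : ∀ n, ∃ A : Set ℕ, A ∈ p.1 ∧ star A ⊆ V n := fun n => exists_star (hV n) (hp n)
  choose A hA1 hA2 using h1
  let B : ℕ → Set ℕ := fun n => ⋂ i ∈ Set.Iic n, A i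
  have hB : ∀ n, B n ∈ p.1 := fun n =>
    (Filter.biInter_mem (Set.finite_Iic n)).2 fun i _ => hA1 i
  have h2 : ∀ n m : ℕ, ∃ k, m < k ∧ k ∈ B n := by
    intro n m
    obtain ⟨k, hk1, hk2⟩ := (infinite_of_mem p (hB n)).exists_gt m
    exact ⟨k, hk2, hk1⟩
  choose c hc1 hc2 using h2
  let b : ℕ → ℕ := fun n => Nat.rec (c 0 0) (fun n r => c (n + 1) r) n
  have hb1 : ∀ n, b n ∈ B n := by
    intro n
    cases n with
    | zero => exact hc2 0 0
    | succ n => exact hc2 (n + 1) (b n)
  have hb2 : StrictMono b := strictMono_nat_of_lt_succ fun n => hc1 (n + 1) (b n)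
  have hinf : (Set.range b).Infinite := Set.infinite_range_of_injective hb2.injective
  refine ⟨star (Set.range b), isOpen_star _, star_nonempty hinf, ?_⟩
  intro n q hq
  apply hA2 n
  have h3 : Set.range b ∩ (b '' Set.Iio n)ᶜ ∈ q.1 := by
    apply Filter.inter_mem hq
    apply mem_of_finite_compl q
    rw [compl_compl]
    exact (Set.finite_Iio n).image b
  apply Filter.mem_of_superset h3
  rintro _ ⟨⟨m, rfl⟩, hm⟩
  have hnm : n ≤ m := by
    by_contra hlt
    push Not at hlt
    exact hm ⟨m, hlt, rfl⟩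
  have := hb1 m
  exact Set.mem_iInter₂.1 this n hnm

/-- The invariant: every `G_δ`-set containing the point has nonempty interior. -/
def Thick {Y : Type*} [TopologicalSpace Y] (g : Y) : Prop :=
  ∀ U : ℕ → Set Y, (∀ n, IsOpen (U n)) → (∀ n, g ∈ U n) → (interior (⋂ n, U n)).Nonempty

theorem Thick.map {Y : Type*} [TopologicalSpace Y] {g : Y} (hg : Thick g) (Φ : Y ≃ₜ Y) :
    Thick (Φ g) := by
  intro U hU hgU
  obtain ⟨y, hy⟩ := hg (fun n => Φ ⁻¹' U n) (fun n => (hU n).preimage Φ.continuous) hgU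
  refine ⟨Φ y, ?_⟩
  have h1 : (⋂ n, Φ ⁻¹' U n) = Φ ⁻¹' (⋂ n, U n) := by
    rw [Set.preimage_iInter]
  rw [h1, ← Φ.preimage_interior] at hy
  exact hy

theorem thick_constMap (p : OmegaStar) : Thick (constMap p) := by
  intro U hU hp
  have key : ∀ W : Set C(OmegaStar, OmegaStar), IsOpen W → constMap p ∈ W →
      ∃ V : Set OmegaStar, IsOpen V ∧ p ∈ V ∧ ∀ g : C(OmegaStar, OmegaStar),
        (∀ x, g x ∈ V) → g ∈ W := by
    intro W hW hpW
    have hbasis := isTopologicalBasis_of_subbasis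
      (ContinuousMap.compactOpen_eq (X := OmegaStar) (Y := OmegaStar))
    obtain ⟨_, ⟨f, ⟨hf1, hf2⟩, rfl⟩, hpf, hfW⟩ := hbasis.exists_subset_of_mem_open hpW hW
    have h1 : ∀ S ∈ f, ∃ V : Set OmegaStar, IsOpen V ∧ p ∈ V ∧ ∀ g : C(OmegaStar, OmegaStar),
        (∀ x, g x ∈ V) → g ∈ S := by
      intro S hS
      obtain ⟨K, hK, O, hO, rfl⟩ := hf2 hS
      rcases K.eq_empty_or_nonempty with rfl | ⟨x, hx⟩
      · exact ⟨Set.univ, isOpen_univ, Set.mem_univ _, fun g _ => Set.mapsTo_empty _ _⟩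
      · have : constMap p ∈ {g : C(OmegaStar, OmegaStar) | Set.MapsTo g K O} := hpf _ hS
        exact ⟨O, hO, this hx, fun g hg y _ => hg y⟩
    choose! V hV1 hV2 hV3 using h1
    refine ⟨⋂ S ∈ f, V S, hf1.isOpen_biInter hV1, Set.mem_iInter₂.2 hV2, ?_⟩
    intro g hg
    apply hfW
    intro S hS
    exact hV3 S hS g fun x => Set.mem_iInter₂.1 (hg x) S hS
  have h1 := fun n => key (U n) (hU n) (hp n)
  choose V hV1 hV2 hV3 using h1
  obtain ⟨G, hG, ⟨q, hq⟩, hGV⟩ := almostP hV1 hV2
  refine ⟨constMap q, ?_⟩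
  rw [mem_interior]
  refine ⟨{g | Set.MapsTo g Set.univ G}, ?_, ContinuousMap.isOpen_setOfPred_mapsTo isCompact_univ hG,
    fun _ _ => hq⟩
  intro g hg
  exact Set.mem_iInter.2 fun n => hV3 n g fun x => hGV n (hg (Set.mem_univ x))

/-- Maps with finite range are dense. -/
theorem exists_finite_range {W : Set C(OmegaStar, OmegaStar)} (hW : IsOpen W) (hne : W.Nonempty) :
    ∃ h ∈ W, (Set.range h).Finite := by
  classical
  obtain ⟨g, hg⟩ := hne
  have hbasis := isTopologicalBasis_of_subbasis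
    (ContinuousMap.compactOpen_eq (X := OmegaStar) (Y := OmegaStar))
  obtain ⟨_, ⟨f, ⟨hf1, hf2⟩, rfl⟩, hgf, hfW⟩ := hbasis.exists_subset_of_mem_open hg hW
  have h0 : ∀ S ∈ f, ∃ K O : Set OmegaStar, IsCompact K ∧ IsOpen O ∧
      S = {f : C(OmegaStar, OmegaStar) | Set.MapsTo f K O} := by
    intro S hS
    obtain ⟨K, hK, O, hO, rfl⟩ := hf2 hS
    exact ⟨K, O, hK, hO, rfl⟩
  choose! K O hK hO hS using h0
  -- good neighbourhoods
  have h1 : ∀ y : OmegaStar, ∃ A : Set ℕ, y ∈ star A ∧ ∀ S ∈ f, y ∉ g '' (K S) →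
      Disjoint (star A) (g '' (K S)) := by
    intro y
    have h2 : IsOpen (⋂ S ∈ f, {z : OmegaStar | y ∉ g '' (K S) → z ∉ g '' (K S)}) := by
      apply hf1.isOpen_biInter
      intro S hS
      by_cases hy : y ∈ g '' (K S)
      · simp [hy]
      · have : {z : OmegaStar | y ∉ g '' (K S) → z ∉ g '' (K S)} = (g '' (K S))ᶜ := by
          ext z
          simp only [Set.mem_ofPred_eq, Set.mem_compl_iff]
          exact ⟨fun h => h hy, fun h _ => h⟩
        rw [this]
        exact ((hK S hS).image g.continuous).isClosed.isOpen_compl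
    obtain ⟨A, hA1, hA2⟩ := exists_star h2 (Set.mem_iInter₂.2 fun S _ h => h)
    refine ⟨A, hA1, ?_⟩
    intro S hS hy
    rw [Set.disjoint_left]
    intro z hz
    exact Set.mem_iInter₂.1 (hA2 hz) S hS hy
  choose A hA1 hA2 using h1
  obtain ⟨t, ht⟩ := isCompact_univ.elim_finite_subcover (fun y : OmegaStar => star (A y))
    (fun y => isOpen_star _) (fun y _ => Set.mem_iUnion.2 ⟨y, hA1 y⟩)
  have hloc : IsLocallyConstant fun z : OmegaStar => t.filter (fun y => z ∈ star (A y)) := by
    rw [IsLocallyConstant.iff_eventually_eq]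
    intro z
    have : ∀ y ∈ t, ∀ᶠ z' in 𝓝 z, (z' ∈ star (A y) ↔ z ∈ star (A y)) := by
      intro y _
      by_cases hz : z ∈ star (A y)
      · filter_upwards [(isOpen_star (A y)).mem_nhds hz] with z' hz'
        simp [hz, hz']
      · filter_upwards [(isClosed_star (A y)).isOpen_compl.mem_nhds hz] with z' hz'
        simp only [hz, iff_false]
        exact hz'
    rw [← Filter.eventually_all_finset] at this
    filter_upwards [this] with z' hz'
    exact Finset.filter_congr fun y hy => hz' y hy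
  obtain ⟨q₀, -⟩ := star_nonempty Set.infinite_univ
  let G : Finset OmegaStar → OmegaStar := fun s => if h : s.Nonempty then h.choose else q₀
  have hG : ∀ z : OmegaStar, G (t.filter (fun y => z ∈ star (A y))) ∈ t ∧
      z ∈ star (A (G (t.filter (fun y => z ∈ star (A y))))) := by
    intro z
    have hne : (t.filter (fun y => z ∈ star (A y))).Nonempty := by
      have := ht (Set.mem_univ z)
      simp only [Set.mem_iUnion] at this
      obtain ⟨y, hy, hz⟩ := this
      exact ⟨y, Finset.mem_filter.2 ⟨hy, hz⟩⟩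
    have h3 : G (t.filter (fun y => z ∈ star (A y))) = hne.choose := by
      simp only [G]
      rw [dif_pos hne]
    rw [h3]
    exact Finset.mem_filter.1 hne.choose_spec
  have hcont : Continuous fun z : OmegaStar => G (t.filter (fun y => z ∈ star (A y))) :=
    (hloc.comp G).continuous
  refine ⟨⟨fun x => G (t.filter (fun y => g x ∈ star (A y))), hcont.comp g.continuous⟩, ?_, ?_⟩
  · apply hfW
    intro S hSf
    rw [hS S hSf]
    intro x hx
    have hgS : g ∈ S := hgf S hSf
    rw [hS S hSf] at hgS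
    change G (t.filter (fun y => g x ∈ star (A y))) ∈ O S
    obtain ⟨h4, h5⟩ := hG (g x)
    by_contra hno
    have h6 : G (t.filter (fun y => g x ∈ star (A y))) ∉ g '' (K S) := by
      rintro ⟨x', hx', hxx'⟩
      apply hno
      rw [← hxx']
      exact hgS hx'
    exact Set.disjoint_left.1 (hA2 _ S hSf h6) h5 (Set.mem_image_of_mem g hx)
  · apply t.finite_toSet.subset
    rintro _ ⟨x, rfl⟩
    exact (hG (g x)).1

/-- Autohomeomorphisms are not thick. -/
theorem not_thick_homeo (f : OmegaStar ≃ₜ OmegaStar) :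
    ¬ Thick (⟨f, f.continuous⟩ : C(OmegaStar, OmegaStar)) := by
  intro h
  -- infinitely many disjoint infinite sets
  let P : ℕ → Set ℕ := fun n => {k | (Nat.unpair k).1 = n}
  have hP : ∀ n, (P n).Infinite := by
    intro n
    apply Set.infinite_of_injective_forall_mem (f := fun m : ℕ => Nat.pair n m)
    · intro a b hab
      exact (Nat.pair_eq_pair.1 hab).2
    · intro m
      simp [P]
  have hne : ∀ n, (star (P n)).Nonempty := fun n => star_nonempty (hP n)
  have hdisj : ∀ n m, n ≠ m → Disjoint (star (P n)) (star (P m)) := by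
    intro n m hnm
    rw [Set.disjoint_left]
    intro q h1 h2
    have h3 : P n ∩ P m ∈ q.1 := Filter.inter_mem h1 h2
    have h4 : P n ∩ P m = ∅ := by
      ext k
      simp only [P, Set.mem_inter_iff, Set.mem_ofPred_eq, Set.mem_empty_iff_false, iff_false]
      rintro ⟨rfl, h5⟩
      exact hnm h5
    rw [h4] at h3
    exact q.1.empty_notMem h3
  obtain ⟨g, hg⟩ := h (fun n => {g | Set.MapsTo g (star (P n)) (f '' (star (P n)))})
    (fun n => ContinuousMap.isOpen_setOfPred_mapsTo (isClosed_star _).isCompact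
      (f.isOpenMap _ (isOpen_star _)))
    (fun n => Set.mapsTo_image f _)
  obtain ⟨k, hk1, hk2⟩ := exists_finite_range isOpen_interior ⟨g, hg⟩
  have hk3 : ∀ n, Set.MapsTo k (star (P n)) (f '' (star (P n))) := fun n =>
    Set.mem_iInter.1 (interior_subset hk1) n
  choose x hx using hne
  have hinj : Function.Injective fun n => k (x n) := by
    intro n m hnm
    by_contra hne
    obtain ⟨y, hy1, hy2⟩ := hk3 n (hx n)
    obtain ⟨z, hz1, hz2⟩ := hk3 m (hx m)
    have h5 : f y = f z := by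
      rw [hy2, hz2]
      exact hnm
    have h6 := f.injective h5
    exact Set.disjoint_left.1 (hdisj n m hne) hy1 (h6 ▸ hz1)
  exact Set.infinite_range_of_injective hinj (hk2.subset (by
    rintro _ ⟨n, rfl⟩
    exact ⟨x n, rfl⟩))

/-- No homeomorphism of `C_k(ω*, ω*)` maps a constant map to an autohomeomorphism of `ω*`;
in particular there are no weak `P`-point `p` and autohomeomorphism `f` such that `f_p` and `f`
lie in the same orbit. -/
theorem result :
    (¬ ∃ (p : OmegaStar) (f : OmegaStar ≃ₜ OmegaStar)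
        (Φ : C(OmegaStar, OmegaStar) ≃ₜ C(OmegaStar, OmegaStar)), IsWeakPPoint p ∧
        Φ (constMap p) = (⟨f, f.continuous⟩ : C(OmegaStar, OmegaStar))) ∧
    (∀ (p : OmegaStar) (f : OmegaStar ≃ₜ OmegaStar)
        (Φ : C(OmegaStar, OmegaStar) ≃ₜ C(OmegaStar, OmegaStar)),
        Φ (constMap p) ≠ (⟨f, f.continuous⟩ : C(OmegaStar, OmegaStar))) := by
  have main : ∀ (p : OmegaStar) (f : OmegaStar ≃ₜ OmegaStar)
        (Φ : C(OmegaStar, OmegaStar) ≃ₜ C(OmegaStar, OmegaStar)),
        Φ (constMap p) ≠ (⟨f, f.continuous⟩ : C(OmegaStar, OmegaStar)) := by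
    intro p f Φ h
    apply not_thick_homeo f
    rw [← h]
    exact (thick_constMap p).map Φ
  refine ⟨?_, main⟩
  rintro ⟨p, f, Φ, -, h⟩
  exact main p f Φ h

end Pool.Agent.Results.MP_80df55_gt.DifferentOrbits
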